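import Pool.Agent.MP_67b169_lc.Reloc
import Pool.Agent.MP_67b169_lc.Int

-- part MP_67b169_lc.Fusion
section

/-!
The fusion argument: countably many witnesses with finite orbits under one support.
-/

namespace Pool.Agent.MP_67b169_lc

open Pool.Agent.Lib.Forcing Pool.Agent.Lib.SymForcing Sys Function

theorem feq_conj {B : Type} [CompleteBooleanAlgebra B] {S : Sys B} {x : S.GN} {g h : S.G}
    (e : Feq (nmap (S.σ (g⁻¹ * h * g)) x.1) x.1) :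
    Feq (nmap (S.σ h) (act g x).1) (act g x).1 := by
  have := e.nmap (S.σ g)
  rwa [← nmap_mul, ← map_mul, ← mul_assoc, ← mul_assoc, mul_inv_cancel, one_mul, map_mul,
    nmap_mul] at this

theorem feq_quot {B : Type} [CompleteBooleanAlgebra B] {S : Sys B} {x : S.GN} {g r : S.G}
    (e : Feq (nmap (S.σ (r⁻¹ * g)) x.1) x.1) : Feq (act g x).1 (act r x).1 := by
  have := e.nmap (S.σ r)
  rwa [← nmap_mul, ← map_mul, ← mul_assoc, mul_inv_cancel, one_mul] at this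

theorem step1 (Q : ∀ U : Ult BB, SS.N U → Prop) [∀ x, Rep (fun U => Q U (cg U x))] {D : Sm}
    {ω : Om'} (hQ : ∀ U : Ult BB, U.P (cnd D ω) → ∃ a, Q U a) :
    ∃ (D' : Sm) (ω' : Om') (x : SS.GN) (Dx : Sm) (m : ℕ), D ≤ D' ∧ Agree D ω ω' ∧
      SS.Supp (HH Dx m) x.1 ∧ Dx.cl ≤ D' ∧ ∀ U : Ult BB, U.P (cnd D' ω') → Q U (cg U x) := by
  have : ∃ (V : Ult BB) (x : SS.GN), SS.Sy x.1 ∧ V.P (cnd D ω) ∧ Q V (cg V x) := by
    by_contra h
    push Not at h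
    obtain ⟨U, hU⟩ := Ult.exists_mem (cnd_ne_bot D ω)
    obtain ⟨a, ha⟩ := hQ U hU
    exact sy_elim (fun U a => U.P (cnd D ω) → ¬ Q U a) (fun V x hx => h V x hx) U a hU ha
  obtain ⟨V, x, ⟨_, ⟨Dx, m, rfl⟩, hx⟩, h1, h2⟩ := this
  have hb : cnd D ω ⊓ bv (fun U => Q U (cg U x)) ≠ ⊥ := fun e =>
    V.bot (e ▸ (V.inf _ _).2 ⟨h1, (bv_iff _ V).2 h2⟩ : V.P ⊥)
  obtain ⟨ω', h3, h4⟩ := RO.ne_bot_iff.1 hb
  obtain ⟨D'', h5⟩ := dense h4
  refine ⟨(D.un D'').un Dx.cl, ω', x, Dx, m, Sm.le_trans (Sm.le_un_left _ _) (Sm.le_un_left _ _),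
    h3, hx, Sm.le_un_right _ _, fun U hU => (bv_iff (fun U => Q U (cg U x)) U).1 ?_⟩
  exact U.mono ((cnd_le (Sm.le_trans (Sm.le_un_right _ _) (Sm.le_un_left _ _))
    (Agree.refl _ _)).trans h5) hU

/-- States of the fusion. -/
structure St (m0 : ℕ) (D0 : Sm) (ω0 : Om') where
  D : Sm
  ω : Om'
  c : ℕ → ℕ
  ok : ∀ n, m0 ≤ n → Ok n (c n) D ω
  bd : ∃ K, ∀ n, c n ≤ K
  le : D0 ≤ D
  ag : Agree D0 ω0 ω

theorem step2 {E : Sm} {mE : ℕ} (Q : ∀ U : Ult BB, SS.N U → Prop)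
    [∀ x, Rep (fun U => Q U (cg U x))] (hinv : Inv (S := SS) (HH E mE) Q) {m0 : ℕ} {D0 : Sm}
    {ω0 : Om'} (hE : E.cl ≤ D0) (hQ : ∀ U : Ult BB, U.P (cnd D0 ω0) → ∃ a, Q U a) (j : ℕ)
    (p : St m0 D0 ω0) : ∃ (p' : St m0 D0 ω0) (x : SS.GN) (m : ℕ), p.D ≤ p'.D ∧
      Agree p.D p.ω p'.ω ∧ (∀ n, p.c n ≤ p'.c n) ∧ (∀ n, m ≤ n → j ≤ p'.c n) ∧
      SS.Supp (HH p'.D m) x.1 ∧ ∀ U : Ult BB, U.P (cnd p'.D p'.ω) → Q U (cg U x) := by
  obtain ⟨D', ω', x, Dx, mx, h1, h2, h3, h4, h5⟩ := step1 Q (D := p.D) (ω := p.ω)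
    fun U hU => hQ U (U.mono (cnd_le p.le p.ag) hU)
  obtain ⟨K, hK⟩ := p.bd
  obtain ⟨m', hm'⟩ := exists_ok D' ω' (max K j)
  let m := max m' mx
  obtain ⟨π, a1, a2, a3⟩ := reloc h1 h2 p.c {n | m0 ≤ n ∧ n < m} m (fun n hn => hn.2)
    fun n hn => p.ok n hn.1
  have a4 : ∀ n, m ≤ n → π.1 n = 1 := fun n hn => a1 n fun h => absurd h.2 (not_lt.2 hn)
  have b1 := le_im h1 a2
  have b2 := h2.trans (agree_fix a2 ω')
  refine ⟨⟨D'.im π, ac π⁻¹ ω', fun n => if n < m then p.c n else max K j, fun n hn => ?_,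
    ⟨max K j, fun n => ?_⟩, Sm.le_trans p.le b1, p.ag.trans (b2.mono p.le)⟩, act π x, m, b1, b2,
    fun n => ?_, fun n hn => ?_, fun h hh => ?_, fun U hU => ?_⟩
  · split_ifs with h
    · exact a3 n ⟨hn, h⟩
    · have := hm' n (le_of_max_le_left (not_lt.1 h)) _ le_rfl
      have e : ∀ k, (D'.im π).D n k = D'.D n k := fun k => by simp [Sm.im, a4 n (not_lt.1 h)]
      have e' : ∀ k ξ η, (ac π⁻¹ ω').1 n k ξ η = ω'.1 n k ξ η := fun k ξ η => by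
        simp [ac, a4 n (not_lt.1 h), Equiv.Perm.one_symm]
      simpa only [Ok, e, e'] using this
  · split_ifs
    · exact (hK n).trans (le_max_left _ _)
    · exact le_rfl
  · simp only
    split_ifs
    · exact le_rfl
    · exact (hK n).trans (le_max_left _ _)
  · simp only [if_neg (not_lt.2 hn)]
    exact le_max_right _ _
  · exact feq_conj (S := SS) (h3 _ (HH_conj (g := π) (D' := D'.im π)
      (fun n k => Set.image_mono (h4 n k)) (le_max_right _ _) a4 hh))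
  · obtain ⟨V, rfl⟩ := umap_surj (SS.σ π) U
    rw [← sigma_cnd, umap_P] at hU
    rw [← iso_cg]
    exact (hinv π (fun n => Or.inl fun k ξ hξ => a2 n k ξ (p.le n k (hE n k hξ))) V _).2 (h5 V hU)

theorem cnd_fix {D : Sm} {m : ℕ} {ω : Om'} (hω : ∀ n, m ≤ n → InvAt ω.1 n) {g : GG}
    (hg : g ∈ HH D m) : cnd D.cl ω ≤ SS.σ g (cnd D.cl ω) := by
  intro ν hν n k ξ η h1 h2
  change ν.1 n k (g.1 n k ξ) (g.1 n (k + 1) η) ↔ _
  rcases hg n with h | ⟨hn, h⟩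
  · rw [h k ξ h1, h _ η h2]
    exact hν n k ξ η h1 h2
  · rw [h k ξ h1, h _ η h2, hν n k _ _ (Sm.tw_mem_cl h1) (Sm.tw_mem_cl h2)]
    exact hω n hn k ξ η

theorem fin_orbit {D : Sm} {m0 m : ℕ} {x : SS.GN} (hx : SS.Supp (HH D m) x.1) :
    ∃ L : List SS.GN, ∀ g ∈ HH D m0, ∃ y ∈ L, Feq (act (S := SS) g x).1 y.1 := by
  classical
  let pat : HH D m0 → Fin m → Prop := fun g n => ∀ k, ∀ ξ ∈ D.cl.D n k, g.1.1 n k ξ = ξ
  let rep : (Fin m → Prop) → HH D m0 := fun t => if h : ∃ g, pat g = t then h.choose else 1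
  have hrep : ∀ g, pat (rep (pat g)) = pat g := fun g => by
    have h : ∃ g', pat g' = pat g := ⟨g, rfl⟩
    simp only [rep, dif_pos h]
    exact h.choose_spec
  refine ⟨(Finset.univ : Finset (Fin m → Prop)).toList.map fun t => act (S := SS) (rep t).1 x,
    fun g hg => ⟨_, List.mem_map.2 ⟨pat ⟨g, hg⟩, by simp, rfl⟩, ?_⟩⟩
  have h1 := hrep ⟨g, hg⟩
  generalize rep (pat ⟨g, hg⟩) = r at h1
  have : r.1⁻¹ * g ∈ HH D m := by
    intro n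
    by_cases hn : n < m
    · have h2 : pat r ⟨n, hn⟩ ↔ pat ⟨g, hg⟩ ⟨n, hn⟩ := by rw [h1]
      refine Or.inl fun k ξ hξ => Equiv.Perm.inv_eq_iff_eq.2 ?_
      change g.1 n k ξ = r.1.1 n k ξ
      by_cases h3 : pat r ⟨n, hn⟩
      · rw [h3 k ξ hξ, h2.1 h3 k ξ hξ]
      · rw [((r.2 n).resolve_left h3).2 k ξ hξ, ((hg n).resolve_left (mt h2.2 h3)).2 k ξ hξ]
    · exact ((HH D m0).mul_mem ((HH D m0).inv_mem r.2) hg n).imp_right
        fun h => ⟨not_lt.1 hn, h.2⟩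
  exact feq_quot (S := SS) (hx _ this)

theorem fusion {b : BB} (hb : b ≠ ⊥) {H : Subgroup GG} (hH : H ∈ SS.F)
    (Q : ℕ → ∀ U : Ult BB, SS.N U → Prop) [∀ j x, Rep (fun U => Q j U (cg U x))]
    (hinv : ∀ j, Inv (S := SS) H (Q j)) (hQ : ∀ j (U : Ult BB), U.P b → ∃ a, Q j U a) :
    ∃ (b' : BB) (H' : Subgroup GG) (x : ℕ → SS.GN), b' ≠ ⊥ ∧ b' ≤ b ∧ H' ∈ SS.F ∧
      (∀ j, ∀ g ∈ H', ∀ U : Ult BB, U.P b' → Q j U (cg U (act (S := SS) g (x j)))) ∧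
      ∀ j, (∃ H'' ∈ SS.F, SS.Supp H'' (x j).1) ∧
        ∃ L : List SS.GN, ∀ g ∈ H', ∃ y ∈ L, Feq (act (S := SS) g (x j)).1 y.1 := by
  obtain ⟨E, mE, rfl⟩ := hH
  obtain ⟨ω0, hω0⟩ := RO.ne_bot_iff.1 hb
  obtain ⟨D1, hD1⟩ := dense hω0
  let D0 := D1.un E.cl
  have hb0 : cnd D0 ω0 ≤ b := (cnd_le (Sm.le_un_left _ _) (Agree.refl _ _)).trans hD1
  obtain ⟨m1, hm1⟩ := exists_ok D0 ω0 0
  let m0 := max m1 mE
  choose f x m h1 h2 h3 h4 h5 h6 using fun j => step2 (Q j) (hinv j) (m0 := m0) (D0 := D0)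
    (ω0 := ω0) (Sm.le_un_right _ _) (fun U hU => hQ j U (U.mono hb0 hU)) j
  let p : ℕ → St m0 D0 ω0 := fun j => Nat.rec ⟨D0, ω0, fun _ => 0,
    fun n hn => hm1 n (le_of_max_le_left hn) 0 le_rfl, ⟨0, fun _ => le_rfl⟩, Sm.le_refl _,
    Agree.refl _ _⟩ f j
  have mono : ∀ i j, i ≤ j → (p i).D ≤ (p j).D ∧ Agree (p i).D (p i).ω (p j).ω ∧
      ∀ n, (p i).c n ≤ (p j).c n := by
    intro i j hij
    induction j, hij using Nat.le_induction with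
    | base => exact ⟨Sm.le_refl _, Agree.refl _ _, fun _ => le_rfl⟩
    | succ j _ ih => exact ⟨Sm.le_trans ih.1 (h1 j _), ih.2.1.trans ((h2 j _).mono ih.1),
        fun n => (ih.2.2 n).trans (h3 j _ n)⟩
  let D : Sm := ⟨fun n k => ⋃ j, (p j).D.D n k,
    fun n k => Set.countable_iUnion fun j => (p j).D.ctb n k, fun c => ⟨max m0 (m c (p c)), by
      intro n hn k hk ξ hξ
      obtain ⟨i, hi⟩ := Set.mem_iUnion.1 hξ
      refine ((p (max i (c + 1))).ok n (le_of_max_le_left hn)).1 k ?_ ξ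
        ((mono _ _ (le_max_left _ _)).1 n k hi)
      exact hk.trans ((h4 c _ n (le_of_max_le_right hn)).trans
        ((mono (c + 1) _ (le_max_right _ _)).2.2 n))⟩⟩
  have hD : ∀ j, (p j).D ≤ D := fun j n k ξ hξ => Set.mem_iUnion.2 ⟨j, hξ⟩
  let lim : Pat := fun n k ξ η => ∃ j, ξ ∈ (p j).D.D n k ∧ η ∈ (p j).D.D n (k + 1) ∧
    (p j).ω.1 n k ξ η
  have hinvω : ∀ n, m0 ≤ n → InvAt (fun n k ξ η => lim n k ξ η ∨
      (m0 ≤ n ∧ lim n k (tw k ξ) (tw (k + 1) η))) n := fun n hn k ξ η => by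
    simp only [tw_tw, hn, true_and, or_comm]
  let ω : Om' := ⟨_, m0, hinvω⟩
  have hag : ∀ j, Agree (p j).D (p j).ω ω := by
    intro j n k ξ η a1 a2
    refine ⟨?_, fun h => Or.inl ⟨j, a1, a2, h⟩⟩
    rintro (⟨i, b1, b2, b3⟩ | ⟨hn, i, b1, b2, b3⟩)
    · exact ((mono _ _ (le_max_right i j)).2.1 n k ξ η a1 a2).1
        (((mono _ _ (le_max_left i j)).2.1 n k ξ η b1 b2).2 b3)
    · have c1 := mono _ _ (le_max_left i j)
      have c2 := mono _ _ (le_max_right i j)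
      exact (c2.2.1 n k ξ η a1 a2).1 ((((p _).ok n hn).2.2 k ξ η (c2.1 _ _ a1) (c2.1 _ _ a2)
        (c1.1 _ _ b1) (c1.1 _ _ b2)).1 ((c1.2.1 n k _ _ b1 b2).2 b3))
  have hle : ∀ j, cnd D.cl ω ≤ cnd (p j).D (p j).ω := fun j =>
    cnd_le (Sm.le_trans (hD j) D.le_cl) (hag j)
  refine ⟨cnd D.cl ω, HH D m0, fun j => x j (p j), cnd_ne_bot _ _, (hle 0).trans hb0,
    ⟨D, m0, rfl⟩, fun j g hg U hU => ?_, fun j => ⟨⟨_, ⟨_, _, rfl⟩, h5 j _⟩,
      fin_orbit ((h5 j (p j)).mono (HH_mono (hD (j + 1)) le_rfl))⟩⟩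
  obtain ⟨V, rfl⟩ := umap_surj (SS.σ g) U
  have hV : V.P (cnd D.cl ω) := V.mono ((SS.σ g).symm_apply_le.2 (cnd_fix hinvω hg)) hU
  rw [← iso_cg]
  refine (hinv j g (HH_mono ?_ (le_max_right _ _) hg) V _).2 (h6 j _ V (V.mono (hle (j + 1)) hV))
  exact Sm.le_trans E.le_cl (Sm.le_trans (Sm.le_un_right _ _) (hD 0))

end Pool.Agent.MP_67b169_lc

end

-- part MP_67b169_lc.Model
section

/-!
The symmetric model satisfies CMC, and (FU) fails in it.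
-/

namespace Pool.Agent.MP_67b169_lc

open Pool.Agent.Lib.Forcing Pool.Agent.Lib.SymForcing Sys Function

instance rep_list (L : List SS.GN) (x : SS.GN) :
    Rep (fun U : Ult BB => cg U x ∈ L.map (cg U)) := by
  induction L with
  | nil => exact Rep.congr (P := fun _ => False) fun _ => by simp
  | cons a L ih =>
    exact Rep.congr (P := fun U => cg U x = cg U a ∨ cg U x ∈ L.map (cg U)) fun _ => by
      rw [List.map_cons, List.mem_cons]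

set_option synthInstance.maxSize 4000 in
theorem cmc (U : Ult BB) : CMC (SS.EN U) := by
  intro w f hw
  obtain rfl := (SS.zf U).om_unique hw (om_omG U)
  refine sy_elim (fun U f => Fn (SS.EN U) (cg U omG) (fun _ a => ∃ t, SS.EN U t a) f →
    ∃ g, Fn (SS.EN U) (cg U omG) (fun n b => (∃ t, SS.EN U t b) ∧ IsFin (SS.EN U) b ∧
      ∀ a, Ap (SS.EN U) f n a → Sub (SS.EN U) b a) g) ?_ U f
  rintro V f ⟨H, hH, hf⟩ hV
  by_contra hne
  let P : Ult BB → Prop := fun U =>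
    Fn (SS.EN U) (cg U omG) (fun _ a => ∃ t, SS.EN U t a) (cg U f) ∧
    ¬ ∃ g, Fn (SS.EN U) (cg U omG) (fun n b => (∃ t, SS.EN U t b) ∧ IsFin (SS.EN U) b ∧
      ∀ a, Ap (SS.EN U) (cg U f) n a → Sub (SS.EN U) b a) g
  have hb : bv P ≠ ⊥ := fun e => V.bot (e ▸ (bv_iff P V).2 ⟨hV, hne⟩ : V.P ⊥)
  obtain ⟨b, H', x, h1, h2, h3, h4, h5⟩ := fusion hb hH
    (fun j U a => ∃ y, Ap (SS.EN U) (cg U f) (cg U (numG j)) y ∧ SS.EN U a y)
    (fun j g hg U a => by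
      simp only [hf.fix hg U, (supp_numG j).fix (g := g) trivial U, (iso g U).ex, Iso.mem, Iso.ap])
    (fun j U hU => by
      have h := ((bv_iff P U).1 hU).1
      obtain ⟨y, hy, -⟩ := h.2.1 _ (num_mem_om U j)
      obtain ⟨t, ht⟩ := h.2.2 _ _ hy
      exact ⟨t, y, hy, ht⟩)
  have hM : ∀ j, SS.Supp H' (lst (fun g : H' => act (S := SS) g.1 (x j)) fun _ => ⊤) := fun j =>
    supp_lst fun g hg => ⟨Equiv.mulLeft (⟨g, hg⟩ : H'), fun i => by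
      rw [← act_mul]; exact fun _ => rfl, fun _ => map_top _⟩
  let M : ℕ → SS.GN := fun j => lstG _ _ ⟨H', h3, hM j⟩
  have hφ : SS.Sy (lst (fun n => opG (numG n) (M n)) fun _ => ⊤) :=
    ⟨H', h3, supp_gr fun g hg => ⟨Equiv.refl _, fun n => ⟨supp_numG n g trivial, hM n g hg⟩⟩⟩
  obtain ⟨W, hW⟩ := Ult.exists_mem h1
  refine ((bv_iff P W).1 (W.mono h2 hW)).2 ⟨cg W (grG numG M hφ),
    grG_dom _ _ _ omG num_mem_om W, ?_, fun n y hy => ?_⟩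
  · refine omG_elim (fun U x => ∃! y, Ap (SS.EN U) (cg U (grG numG M hφ)) x y)
      (fun V n => ⟨_, ap_grG _ _ _ V n, fun y hy => ?_⟩) W
    exact grG_elim _ _ hφ (fun U a b => a = cg U (numG n) → b = cg U (M n))
      (fun W m e => by rw [(numG_inj W).1 e]) V _ _ hy rfl
  · refine grG_elim _ _ hφ (fun U n y => U.P b → (∃ t, SS.EN U t y) ∧ IsFin (SS.EN U) y ∧
      ∀ a, Ap (SS.EN U) (cg U f) n a → Sub (SS.EN U) y a) (fun V j hV => ⟨⟨_,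
        lst_intro (fun g : H' => act (S := SS) g.1 (x j)) _ V 1 V.top⟩, ?_, fun a ha z hz => ?_⟩)
      W n y hy hW
    · obtain ⟨L, hL⟩ := (h5 j).2
      refine (SS.zf V).isFin_of_list (L.map (cg V)) _ ?_
      refine lst_elim _ _ (fun U z => z ∈ L.map (cg U)) (fun U g _ => ?_) V
      obtain ⟨y, hy, e⟩ := hL g.1 g.2
      exact List.mem_map.2 ⟨y, hy, (cg_eq.2 (e U)).symm⟩
    · refine lst_elim _ _ (fun U z => U.P b → ∀ a, Ap (SS.EN U) (cg U f) (cg U (numG j)) a →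
        SS.EN U z a) (fun U g _ hU a ha => ?_) V z hz hV a ha
      obtain ⟨y, hy, hz⟩ := h4 j g.1 g.2 U hU
      exact (SS.zf U).fn_unique ((bv_iff P U).1 (U.mono h2 hU)).1 hy ha ▸ hz

/-- Codes of labels. -/
def code (ξ : Lb) : Set ℕ :=
  {i | (i = 0 ∧ ξ.2 = none) ∨ (i = 1 ∧ ξ.2 = some true) ∨ ∃ j ∈ ξ.1, i = j + 2}

theorem code_inj : Injective code := by
  rintro ⟨a, o⟩ ⟨a', o'⟩ h
  have h0 := Set.ext_iff.1 h 0
  have h1 := Set.ext_iff.1 h 1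
  refine Prod.ext (Set.ext fun j => by simpa [code] using Set.ext_iff.1 h (j + 2)) ?_
  rcases o with _ | _ | _ <;> rcases o' with _ | _ | _ <;> simp [code] at h0 h1 ⊢

theorem supp_x0 (ξ : Lb) : SS.Supp ⊤ (lst (S := SS) (fun i : code ξ => numG i.1) fun _ => ⊤) :=
  supp_lst fun g hg => ⟨Equiv.refl _, fun i => supp_numG i.1 g hg, fun _ => map_top _⟩

/-- Names on level zero. -/
noncomputable def x0 (ξ : Lb) : SS.GN := lstG _ _ ⟨⊤, SS.top, supp_x0 ξ⟩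

theorem feq_lvl {n k : ℕ} {x : Lb → SS.GN}
    (hx : ∀ (g : GG) ξ, Feq (act (S := SS) g (x ξ)).1 (x (g.1 n k ξ)).1) (g : GG) (η : Lb) :
    Feq (nmap (SS.σ g) (lst x fun ξ => lit n k ξ η)) (lst x fun ξ => lit n k ξ (g.1 n (k + 1) η)) := by
  rw [nmap_lst]
  exact feq_lst (g.1 n k) (hx g) fun _ => rfl

/-- Names of the nodes, level by level. -/
noncomputable def xs (n : ℕ) : (k : ℕ) → {x : Lb → SS.GN //
    ∀ (g : GG) ξ, Feq (act (S := SS) g (x ξ)).1 (x (g.1 n k ξ)).1}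
  | 0 => ⟨x0, fun g ξ => by rw [g.2.1]; exact supp_x0 ξ g trivial⟩
  | k + 1 => ⟨fun η => lstG (xs n k).1 (fun ξ => lit n k ξ η)
      ⟨HH (Sm.one n (k + 1) η) (n + 1), ⟨_, _, rfl⟩, fun g hg => by
        have := feq_lvl (xs n k).2 g η
        rwa [((hg n).resolve_right fun h => absurd h.1 (by omega)) _ η
          (Or.inl ⟨rfl, rfl, rfl⟩)] at this⟩, feq_lvl (xs n k).2⟩

theorem x0_sub {ξ η : Lb} {U : Ult BB} (e : cg U (x0 ξ) = cg U (x0 η)) : code ξ ⊆ code η := by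
  intro i hi
  have h1 : SS.EN U (cg U (numG i)) (cg U (x0 ξ)) :=
    lst_intro (fun i : code ξ => numG i.1) _ U ⟨i, hi⟩ U.top
  rw [e] at h1
  exact lst_elim _ _ (fun U z => z = cg U (numG i) → i ∈ code η)
    (fun V j _ e => by rw [← (numG_inj V).1 e]; exact j.2) U _ h1 rfl

theorem x_ne (n k : ℕ) {ξ η : Lb} (h : ξ ≠ η) (U : Ult BB) :
    cg U ((xs n k).1 ξ) ≠ cg U ((xs n k).1 η) := by
  induction k generalizing ξ η U with
  | zero => exact fun e => h (code_inj ((x0_sub e).antisymm (x0_sub e.symm)))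
  | succ k ih =>
    refine sup_elim _ (fun U => cg U ((xs n (k + 1)).1 ξ) ≠ cg U ((xs n (k + 1)).1 η))
      (fun V ζ hζ e => ?_) U (generic n k h ▸ U.top)
    rw [V.inf, V.compl] at hζ
    have h1 : SS.EN V (cg V ((xs n k).1 ζ)) (cg V ((xs n (k + 1)).1 ξ)) :=
      lst_intro (xs n k).1 _ V ζ hζ.1
    rw [e] at h1
    refine hζ.2 (lst_elim (xs n k).1 _ (fun U z => z = cg U ((xs n k).1 ζ) → U.P (lit n k ζ η))
      (fun W ζ' h2 h3 => ?_) V _ h1 rfl)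
    by_cases e' : ζ' = ζ
    · exact e' ▸ h2
    · exact (ih e' W h3).elim

/-- The points. -/
noncomputable def pG (p : ℕ × Bool) : SS.GN :=
  opG (numG p.1) ((xs p.1 (p.1 + 1)).1 (∅, some p.2))

theorem p_inj (U : Ult BB) {p q : ℕ × Bool} (e : cg U (pG p) = cg U (pG q)) : p = q := by
  obtain ⟨n, a⟩ := p
  obtain ⟨m, b⟩ := q
  have h0 : Pr (SS.EN U) _ _ (cg U (pG (m, b))) := pr_opG U _ _
  rw [← e] at h0
  obtain ⟨h1, h2⟩ := (SS.zf U).pr_inj (pr_opG U _ _) h0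
  obtain rfl : n = m := (numG_inj U).1 h1
  by_contra h
  exact x_ne n (n + 1) (by simpa using h) U h2

theorem feq_p {g : GG} {n : ℕ} {a b : Bool} (h : g.1 n (n + 1) (∅, some a) = (∅, some b)) :
    Feq (act (S := SS) g (pG (n, a))).1 (pG (n, b)).1 :=
  act_opG _ (supp_numG (S := SS) n g trivial) (h ▸ (xs n (n + 1)).2 g (∅, some a))

/-- The top nodes. -/
def E0 : Sm where
  D n k := {ξ | k = n + 1 ∧ ξ = (∅, some false)}
  ctb _ _ := (Set.countable_singleton _).mono fun _ h => h.2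
  star c := ⟨c, fun n hn k hk ξ h => by have := h.1; omega⟩

theorem mem_E0 (n : ℕ) (a : Bool) : (∅, some a) ∈ E0.cl.D n (n + 1) := by
  cases a
  · exact Or.inl ⟨rfl, rfl⟩
  · exact Or.inr ⟨rfl, rfl⟩

theorem exists_perm {g : GG} (hg : g ∈ HH E0 0) : ∃ e : ℕ × Bool ≃ ℕ × Bool,
    ∀ p, (e p).1 = p.1 ∧ Feq (act (S := SS) g (pG p)).1 (pG (e p)).1 := by
  have : ∀ n, ∃ t : Equiv.Perm Bool, ∀ a, g.1 n (n + 1) (∅, some a) = (∅, some (t a)) := fun n =>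
    (hg n).elim (fun h => ⟨1, fun a => h _ _ (mem_E0 n a)⟩)
      fun h => ⟨Equiv.boolNot, fun a => h.2 _ _ (mem_E0 n a)⟩
  choose t ht using this
  exact ⟨Equiv.prodCongrRight t, fun p => ⟨rfl, feq_p (ht p.1 p.2)⟩⟩

theorem supp_A : SS.Supp (HH E0 0) (lst pG fun _ => ⊤) :=
  supp_lst fun _ hg => (exists_perm hg).imp fun _ he => ⟨fun p => (he p).2, fun _ => map_top _⟩

/-- The set of all points. -/
noncomputable def AG : SS.GN := lstG _ _ ⟨_, ⟨_, _, rfl⟩, supp_A⟩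

theorem p_mem_A (U : Ult BB) (p : ℕ × Bool) : SS.EN U (cg U (pG p)) (cg U AG) :=
  lst_intro pG _ U p U.top

/-- Points and the point at infinity. -/
noncomputable def oG : Option (ℕ × Bool) → SS.GN
  | none => AG
  | some p => pG p

theorem supp_T (n : ℕ) : SS.Supp (HH E0 0)
    (lst (fun o : {o : Option (ℕ × Bool) // ∀ p ∈ o, n ≤ p.1} => oG o.1) fun _ => ⊤) := by
  refine supp_lst fun g hg => ?_
  obtain ⟨e, he⟩ := exists_perm hg
  refine ⟨e.optionCongr.subtypeEquiv ?_, ?_, fun _ => map_top _⟩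
  · rintro (_ | p) <;> simp [he]
  · rintro ⟨_ | p, h⟩
    · exact supp_A g hg
    · exact (he p).2

/-- The tails. -/
noncomputable def TG (n : ℕ) : SS.GN := lstG _ _ ⟨_, ⟨_, _, rfl⟩, supp_T n⟩

theorem o_mem_T (U : Ult BB) {n : ℕ} {o : Option (ℕ × Bool)} (h : ∀ p ∈ o, n ≤ p.1) :
    SS.EN U (cg U (oG o)) (cg U (TG n)) :=
  lst_intro (fun o : {o : Option (ℕ × Bool) // ∀ p ∈ o, n ≤ p.1} => oG o.1) _ U ⟨o, h⟩ U.top

theorem p_mem_T (U : Ult BB) (n : ℕ) (p : ℕ × Bool) :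
    SS.EN U (cg U (pG p)) (cg U (TG n)) ↔ n ≤ p.1 := by
  refine ⟨fun h => lst_elim _ _ (fun U z => z = cg U (pG p) → n ≤ p.1) ?_ U _ h rfl,
    fun h => o_mem_T U (o := some p) (by simpa using h)⟩
  rintro V ⟨_ | q, h⟩ - e
  · exact ((SS.zf V).not_mem_self _ (e ▸ p_mem_A V p)).elim
  · exact p_inj V e ▸ h q rfl

theorem T_inj (U : Ult BB) {m n : ℕ} (e : cg U (TG m) = cg U (TG n)) : m = n :=
  le_antisymm ((p_mem_T U m (n, true)).1 (e ▸ (p_mem_T U n (n, true)).2 le_rfl))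
    ((p_mem_T U n (m, true)).1 (e ▸ (p_mem_T U m (m, true)).2 le_rfl))

theorem supp_B : SS.Supp (HH E0 0) (lst TG fun _ => ⊤) :=
  supp_lst fun g hg => ⟨Equiv.refl _, fun n => supp_T n g hg, fun _ => map_top _⟩

/-- The family of all tails. -/
noncomputable def BG : SS.GN := lstG _ _ ⟨_, ⟨_, _, rfl⟩, supp_B⟩

theorem T_mem_B (U : Ult BB) (n : ℕ) : SS.EN U (cg U (TG n)) (cg U BG) :=
  lst_intro TG _ U n U.top

theorem denum_B (U : Ult BB) : IsDenum (SS.EN U) (cg U BG) := by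
  have hφ : SS.Sy (lst (fun n => opG (numG n) (TG n)) fun _ => ⊤) :=
    ⟨_, ⟨E0, 0, rfl⟩, supp_gr fun g hg =>
      ⟨Equiv.refl _, fun n => ⟨supp_numG n g trivial, supp_T n g hg⟩⟩⟩
  refine ⟨_, cg U (grG numG TG hφ), om_omG U, ⟨grG_dom _ _ _ omG num_mem_om U, ?_, ?_⟩,
    fun x x' y h1 h2 => ?_, ?_⟩
  · refine omG_elim (fun U x => ∃! y, Ap (SS.EN U) (cg U (grG numG TG hφ)) x y)
      (fun V n => ⟨_, ap_grG _ _ _ V n, fun y hy => ?_⟩) U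
    exact grG_elim _ _ hφ (fun U a b => a = cg U (numG n) → b = cg U (TG n))
      (fun W m e => by rw [(numG_inj W).1 e]) V _ _ hy rfl
  · exact grG_elim _ _ hφ (fun U _ b => SS.EN U b (cg U BG)) T_mem_B U
  · refine grG_elim _ _ hφ (fun U x y => ∀ x', Ap (SS.EN U) (cg U (grG numG TG hφ)) x' y → x = x')
      (fun V n x' h => ?_) U x y h1 x' h2
    exact grG_elim _ _ hφ (fun U a b => b = cg U (TG n) → cg U (numG n) = a)
      (fun W m e => by rw [T_inj W e]) V _ _ h rfl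
  · exact lst_elim TG _ (fun U y => ∃ x, Ap (SS.EN U) (cg U (grG numG TG hφ)) x y)
      (fun V n _ => ⟨_, ap_grG _ _ _ V n⟩) U

set_option synthInstance.maxSize 4000 in
theorem no_seq (U : Ult BB) (s : SS.N U) :
    ¬ (Fn (SS.EN U) (cg U omG) (fun _ y => SS.EN U y (cg U AG)) s ∧
      ∀ T, SS.EN U T (cg U BG) → ∃ k y, Ap (SS.EN U) s k y ∧ SS.EN U y T) := by
  refine sy_elim (fun U s => ¬ (Fn (SS.EN U) (cg U omG) (fun _ y => SS.EN U y (cg U AG)) s ∧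
      ∀ T, SS.EN U T (cg U BG) → ∃ k y, Ap (SS.EN U) s k y ∧ SS.EN U y T)) ?_ U s
  rintro V s ⟨_, ⟨D, mD, rfl⟩, hs⟩ hV
  let P : Ult BB → Prop := fun U =>
    Fn (SS.EN U) (cg U omG) (fun _ y => SS.EN U y (cg U AG)) (cg U s) ∧
      ∀ T, SS.EN U T (cg U BG) → ∃ k y, Ap (SS.EN U) (cg U s) k y ∧ SS.EN U y T
  have hb : bv P ≠ ⊥ := fun e => V.bot (e ▸ (bv_iff P V).2 hV : V.P ⊥)
  obtain ⟨ω, hω⟩ := RO.ne_bot_iff.1 hb
  obtain ⟨D1, hD1⟩ := dense hω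
  let D2 := (D1.un D).un E0
  have hD2 : cnd D2.cl ω ≤ bv P := (cnd_le (Sm.le_trans (Sm.le_trans (Sm.le_un_left _ _)
    (Sm.le_un_left _ _)) D2.le_cl) (Agree.refl _ _)).trans hD1
  obtain ⟨n0, hn0⟩ := exists_ok D2.cl ω 0
  obtain ⟨W, hW⟩ := Ult.exists_mem (cnd_ne_bot D2.cl ω)
  have hPW := (bv_iff P W).1 (W.mono hD2 hW)
  obtain ⟨k, y, h1, h2⟩ := hPW.2 _ (T_mem_B W (max n0 mD))
  refine omG_elim (fun U k => ∀ y, SS.EN U y (cg U AG) → U.P (cnd D2.cl ω) →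
    Ap (SS.EN U) (cg U s) k y → ¬ SS.EN U y (cg U (TG (max n0 mD)))) (fun W i y hy => ?_) W k
    ((SS.zf W).fn_dom hPW.1 h1) y (hPW.1.2.2 _ _ h1) hW h1 h2
  refine lst_elim pG _ (fun U y => U.P (cnd D2.cl ω) → Ap (SS.EN U) (cg U s) (cg U (numG i)) y →
    ¬ SS.EN U y (cg U (TG (max n0 mD)))) ?_ W y hy
  rintro W ⟨n, a⟩ - hW h1 h2
  have hn := (p_mem_T W _ _).1 h2
  let Q : Ult BB → Prop := fun U => Ap (SS.EN U) (cg U s) (cg U (numG i)) (cg U (pG (n, a)))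
  have hb' : cnd D2.cl ω ⊓ bv Q ≠ ⊥ := fun e =>
    W.bot (e ▸ (W.inf _ _).2 ⟨hW, (bv_iff Q W).2 h1⟩ : W.P ⊥)
  obtain ⟨ω', h3, h4⟩ := RO.ne_bot_iff.1 hb'
  obtain ⟨D', h5⟩ := dense h4
  obtain ⟨g, hg, hg', h6⟩ := swap_compat (D2.cl.le_un_left D') h3
    (hn0 n (le_of_max_le_left hn) 0 le_rfl)
  obtain ⟨Z, hZ⟩ := Ult.exists_mem h6
  obtain ⟨Z', rfl⟩ := umap_surj (SS.σ g) Z
  rw [Ult.inf, umap_P] at hZ
  have l1 := (cnd_le (D2.cl.le_un_right D') (Agree.refl D' ω')).trans h5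
  have l2 := (cnd_le (D2.cl.le_un_left D') h3).trans hD2
  have a1 := (bv_iff Q _).1 (Ult.mono _ l1 hZ.1)
  have a2 := ((iso (S := SS) g Z').ap _ _ _).2 ((bv_iff Q _).1 (Ult.mono _ l1 hZ.2))
  have e1 := feq_p (hg' _ _ (Sm.cl_mono (Sm.le_un_right _ _) _ _ (mem_E0 n a)))
  rw [iso_cg, iso_cg, iso_cg, hs.cg_act (HH_mono (Sm.le_trans (Sm.le_un_right _ _)
    (Sm.le_un_left _ _)) (le_of_max_le_right hn) hg), (supp_numG i).cg_act trivial,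
    cg_eq.2 (e1 _)] at a2
  have := p_inj _ ((SS.zf _).fn_unique ((bv_iff P _).1 (Ult.mono _ l2 hZ.1)).1 a1 a2)
  simp at this

theorem not_fu (U : Ult BB) : ¬ SentFU (SS.EN U) := by
  refine not_sentFU (SS.zf U) (A := cg U AG) (denum_B U) ?_ (fun T T' h h' => ?_) ?_
    ⟨_, T_mem_B U 0⟩ fun w s hw hs h => ?_
  · refine lst_elim TG _ (fun U T => (∀ z, SS.EN U z T → SS.EN U z (cg U AG) ∨ z = cg U AG) ∧
      SS.EN U (cg U AG) T ∧ ∃ a, SS.EN U a T ∧ SS.EN U a (cg U AG)) (fun V n _ => ⟨?_,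
        o_mem_T V (o := none) (by simp), _, (p_mem_T V n (n, true)).2 le_rfl, p_mem_A V _⟩) U
    refine lst_elim _ _ (fun U z => SS.EN U z (cg U AG) ∨ z = cg U AG) ?_ V
    rintro W ⟨_ | p, h⟩ -
    · exact Or.inr rfl
    · exact Or.inl (p_mem_A W p)
  · have key : ∀ (U : Ult BB) m n, m ≤ n → Sub (SS.EN U) (cg U (TG n)) (cg U (TG m)) :=
      fun U m n h => lst_elim _ _ (fun U z => SS.EN U z (cg U (TG m)))
        (fun V o _ => o_mem_T V fun p hp => h.trans (o.2 p hp)) U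
    refine lst_elim TG _ (fun U T => ∀ T', SS.EN U T' (cg U BG) →
      Sub (SS.EN U) T T' ∨ Sub (SS.EN U) T' T) (fun V m _ => ?_) U T h T' h'
    exact lst_elim TG _ (fun U T' => Sub (SS.EN U) (cg U (TG m)) T' ∨ Sub (SS.EN U) T' (cg U (TG m)))
      (fun W n _ => (le_total n m).imp (key W n m) (key W m n)) V
  · exact lst_elim pG _ (fun U a => ∃ T, SS.EN U T (cg U BG) ∧ ¬ SS.EN U a T)
      (fun V p _ => ⟨_, T_mem_B V (p.1 + 1), fun h => by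
        have := (p_mem_T V _ _).1 h; omega⟩) U
  · obtain rfl := (SS.zf U).om_unique hw (om_omG U)
    exact no_seq U s ⟨hs, h⟩

theorem main : ∃ (M : Type 1) (E : M → M → Prop), ZF E ∧ CMC E ∧ SentK E ∧ ¬ SentFU E := by
  obtain ⟨U, -⟩ := Ult.exists_mem (cnd_ne_bot E0 ⟨fun _ _ _ _ => True, 0, fun _ _ _ _ _ => Iff.rfl⟩)
  exact ⟨SS.N U, SS.EN U, SS.zf U, cmc U, sentK_of_cmc (SS.zf U) (cmc U), not_fu U⟩

end Pool.Agent.MP_67b169_lc

end
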